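import Pool.Agent.Y877.Win

/-!
# Almost every number k has one of the multiples 6 k, 12 k, 18 k among the differences of primes

There is an absolute constant `c > 0` with the following property. Let `m 0, ..., m (T - 1)` be any distinct
natural numbers and `(4 - c) M < T`. Then, in EVERY window `(u, u + H]` with `H ≥ C(ε)` (however short in
comparison with `u`), for all but `ε H` of the `k` there are `M + 1` of the `m i` such that the multiples
`q b (m j - m i) k` are, for ALL pairs of these `M + 1` numbers, differences of two primes: `p` and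
`p + q b (m j - m i) k` are both primes in `[x, (1 + s) x]`, `p ≡ a (mod q)`, for at least `x ^ (1 - η)` of
the `p`. This is uniform in the class `a` prime to `q`, in the admissible `b`, in the window and in the scale
`x ≥ C q² b (u + H)`, `x ≥ x₀(q, η)`; `b` is admissible if `b m 0, ..., b m (T - 1)` do not occupy all the
classes modulo any prime (for instance all multiples of `T!`).

For `M = 1`, `T = 4`, `m = (0, 1, 2, 3)`, `b = 6`: for almost every `k` (density one in every long window, at
every large scale) one of `6 k, 12 k, 18 k` is a difference of two primes.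

Proof: the coloured Maynard-Tao theorem of the starting files (more than a quarter of the classes of shifts
contain primes at the same time), and a multidimensional Szemeredi-Varnavides theorem: if a positive
proportion of the `k` were bad, with the same bad pairs, then there would be sets of shifts `A i` with all
differences between elements of `A i` and `A j` of the form `(m j - m i) k`, `k` bad.
-/

set_option autoImplicit false

namespace Pool.Agent.Results.MP_70e905_nt.AlmostAllMultipliers

open Finset Filter

/-- The number of the primes `p` with `p ≡ a (mod q)` and `x ≤ p` for which `p + d` is a prime and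
`p + d ≤ (1 + s) x`. -/
noncomputable def twins (s : ℝ) (x q a d : ℕ) : ℕ :=
  {p : ℕ | p.Prime ∧ (p + d).Prime ∧ p ≡ a [MOD q] ∧ (x : ℝ) ≤ p ∧
    ((p + d : ℕ) : ℝ) ≤ (1 + s) * x}.ncard

/-- There are `M + 1` indices such that for ALL pairs `i`, `j` of them with `m i < m j` the number
`(m j - m i) d` is a difference of two primes at the scale `x`, with at least `x ^ (1 - η)` pairs of
primes. -/
def Clique {T : ℕ} (m : Fin T → ℕ) (M : ℕ) (s η : ℝ) (x q a d : ℕ) : Prop :=
  ∃ S : Finset (Fin T), M + 1 ≤ S.card ∧ ∀ i ∈ S, ∀ j ∈ S, m i < m j →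
    (x : ℝ) ^ (1 - η) ≤ twins s x q a ((m j - m i) * d)

open Classical in
theorem result : ∃ c : ℝ, 0 < c ∧ c < 1 ∧ ∀ T M : ℕ, 1 ≤ T → (4 - c) * M < T →
    ∀ m : Fin T → ℕ, Function.Injective m → ∀ ε s : ℝ, 0 < ε → 0 < s →
    ∃ C : ℕ, ∀ q : ℕ, 1 ≤ q → ∀ η : ℝ, 0 < η →
    ∀ᶠ x : ℕ in atTop, ∀ a b : ℕ, a.Coprime q → 1 ≤ b →
    (∀ p : ℕ, p.Prime → ∃ r : ℤ, ∀ i, ¬ (p : ℤ) ∣ b * m i + r) →
    ∀ u H : ℕ, C ≤ H → C * (q ^ 2 * b * (u + H)) ≤ x →
    (1 - ε) * (H : ℝ) ≤
      (((Ioc u (u + H)).filter (fun k : ℕ => Clique m M s η x q a (q * b * k))).card : ℝ) :=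
  Pool.Agent.Y877.almostAllW

end Pool.Agent.Results.MP_70e905_nt.AlmostAllMultipliers
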