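import Pool.Agent.Y885.PD3

/-!
# Even numbers as differences of two primes, up to very few elements of an arbitrary set which meets every
interval `[x, l x]`

Definition used: `Pool.Agent.H560R3.GB.C₂`, the twin prime constant `∏_{p > 2} (1 - 1 / (p - 1) ^ 2)`
(the infimum of the partial products).
-/

set_option autoImplicit false

namespace Pool.Agent.Results.MP_70e905_nt.ElementsOfAnySet

open Finset Pool.Agent.H560R3.GB

open Classical in
/-- `π_m(x; a, q)`: the number of primes `p` such that `p + m ≤ x` is a prime and `p ≡ a (mod q)`. -/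
noncomputable def pairs (m : ℕ) (x : ℝ) (a q : ℕ) : ℕ :=
  ((range (⌊x⌋₊ + 1)).filter (fun p => p.Prime ∧ (p + m).Prime ∧ (p : ℝ) + m ≤ x ∧ p ≡ a [MOD q])).card

/-- The prediction of Hardy and Littlewood for `π_m(x; a, q)`, if `m` is even and `(a, q) = (a + m, q) = 1`. -/
noncomputable def main (m : ℕ) (x : ℝ) (q : ℕ) : ℝ :=
  2 / (((range q).filter (fun α => Nat.Coprime α q ∧ Nat.Coprime (α + m) q)).card : ℝ) *
    (∏ p ∈ m.primeFactors.filter (fun p => 2 < p), ((p : ℝ) - 1) / ((p : ℝ) - 2)) * C₂ *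
    ∫ t in (2 : ℝ)..x, 1 / Real.log t ^ 2

/-- `m` is a difference `q - p` of two primes `q ≤ X` and `p`, and for all `x ≤ X`, all moduli `q ≤ log ^ B X` and
all classes `a` with `(a, q) = (a + m, q) = 1` the number `π_m(x; a, q)` of such differences is as predicted, with
an error of at most `X / log ^ C X`. -/
def Holds (B C X m : ℕ) : Prop :=
  (∃ p q : ℕ, p.Prime ∧ q.Prime ∧ q ≤ X ∧ p + m = q) ∧
  ∀ q a : ℕ, 1 ≤ q → (q : ℝ) ≤ Real.log X ^ B → Nat.Coprime a q → Nat.Coprime (a + m) q → ∀ x : ℝ, 2 ≤ x → x ≤ X →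
    |(pairs m x a q : ℝ) - main m x q| ≤ X / Real.log X ^ C

lemma holds_of (B C X m : ℕ) (h2 : 2 ∣ m) (h0 : m ≠ 0) (h1 : ∃ p q : ℕ, p.Prime ∧ q.Prime ∧ q ≤ X ∧ p + m = q)
    (h3 : Pool.Agent.W93.PP.GoodD 0 B C X m) : Holds B C X m := by
  refine ⟨h1, fun q a hq1 hq2 ha ham x hx2 hxX => ?_⟩
  have h4 := h3 0 q a (by push_cast; positivity) hq1 hq2 ha (by rw [add_zero]; exact ham) (by rw [add_zero]; exact h2)
    (by rw [add_zero]; exact h0) x hx2 hxX
  rw [add_zero] at h4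
  have e1 : main m x q = sing m / Pool.Agent.W93.PP.Cnt q m * Pool.Agent.W93.PP.Li2 x := by
    unfold main sing Pool.Agent.W93.PP.Cnt Pool.Agent.W93.PP.Li2
    ring
  rw [e1]
  exact h4

/-- Let `l ≥ 2`, `B`, `C ≥ 3` and `W` be fixed. There is a constant `K` such that for all `H` there is an `X₀` with the
following property. Let `A` be an arbitrary set of integers which contains an element of every interval
`[x, l x]`, `x ≥ 1` (the constants `K` and `X₀` do not depend on `A`). (1) Every even integer `h ≥ X₀` is the sum of an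
integer `m` and of at most `K (log log h) ^ 2` distinct elements of `A`, all between `log ^ H h` and `h / log ^ H h`,
where `m` is a difference of two primes and the numbers of the representations of `m` as a difference of two
primes up to `X`, in arithmetic progressions, are as predicted; here `X` is an arbitrary integer
with `h log ^ (C + 6) X ≤ X ≤ h log ^ W X`. (2) For every `X ≥ X₀` and every even `h` with
`0 < h ≤ X / log ^ (C + 6) X` the sum `m` of `h` and of at most `K (log log X) ^ 2` distinct elements of `A`, which are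
suitably chosen between `log ^ H X` and `X / log ^ H X`, is a difference of two primes with the same properties. -/
theorem result (l B C W : ℕ) (hl : 2 ≤ l) (hC : 3 ≤ C) : ∃ K : ℝ, ∀ H : ℕ, ∃ X₀ : ℕ, ∀ A : Set ℕ,
    (∀ x : ℕ, 1 ≤ x → ∃ a ∈ A, x ≤ a ∧ a ≤ l * x) →
      (∀ h : ℕ, X₀ ≤ h → Even h → ∀ X : ℕ, h ≤ X → h * Real.log X ^ (C + 6) ≤ X → (X : ℝ) ≤ h * Real.log X ^ W →
        ∃ S : Finset ℕ, (∀ a ∈ S, a ∈ A ∧ Real.log h ^ H ≤ a ∧ (a : ℝ) ≤ h / Real.log h ^ H) ∧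
          (S.card : ℝ) ≤ K * Real.log (Real.log h) ^ 2 ∧ ∃ m : ℕ, m + ∑ a ∈ S, a = h ∧ Holds B C X m) ∧
      (∀ X : ℕ, X₀ ≤ X → ∀ h : ℕ, Even h → 0 < h → (h : ℝ) ≤ X / Real.log X ^ (C + 6) →
        ∃ S : Finset ℕ, (∀ a ∈ S, a ∈ A ∧ Real.log X ^ H ≤ a ∧ (a : ℝ) ≤ X / Real.log X ^ H) ∧
          (S.card : ℝ) ≤ K * Real.log (Real.log X) ^ 2 ∧ Holds B C X (h + ∑ a ∈ S, a)) := by
  obtain ⟨K, h0⟩ := Pool.Agent.Y885.polignac_all l B C W hl hC
  refine ⟨K, fun H => ?_⟩
  obtain ⟨X₀, h1⟩ := h0 H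
  refine ⟨X₀, fun A hA => ⟨fun h hh hev X hX0 hX1 hX2 => ?_, fun X hX h hev hpos hh => ?_⟩⟩
  · obtain ⟨S, s1, s2, m, m1, m2, m3, m4, m5⟩ := (h1 A hA).1 h hh hev.two_dvd X hX0 hX1 hX2
    exact ⟨S, s1, s2, m, m1, holds_of B C X m m2 m3 m4 m5⟩
  · obtain ⟨S, s1, s2, m2, m3, m4, m5⟩ := (h1 A hA).2 X hX h hev.two_dvd hpos hh
    exact ⟨S, s1, s2, holds_of B C X _ m2 m3 m4 m5⟩

end Pool.Agent.Results.MP_70e905_nt.ElementsOfAnySet
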