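import Pool.Agent.Y877.GqE

/-!
# Five ninths of the divisors of a highly divisible number are differences of primes, and almost every
divisor `n` has this property for `n`, `2 n` or `3 n`

A finite set `F` of positive integers is almost invariant if, for all `k ≤ K`, all but `|F| / K` of its
elements `n` have `k n` in `F`. Examples: the set of ALL divisors of `N`, for every multiple `N` of some
`M₀(K)` (part 2); the products `p₁ ^ e₁ ⋯ p_r ^ e_r` with the `e_i` in arbitrary long intervals, where the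
`p_i` are the primes up to `K`; the multiples of these by the elements of an arbitrary set of numbers prime
to `K!`.

Let `ε > 0` and `T > (18 / 5) M`, and let `m_0, ..., m_(T-1)` be distinct. If `K` is large, then for every
almost invariant set `F` and EVERY scale `x ≥ K q² max F`, `x ≥ x₀(q, η)`,

* at least `(5 / 9 - ε) |F|` of the elements `n` of `F` are such that for at least `x ^ (1 - η)` primes
  `p ≡ a (mod q)`, `p ≥ x`, also `p + q n` is a prime, `p + q n ≤ 9 x`;
* for all but at most `ε |F|` of the elements `n` of `F` this holds simultaneously for all the multiples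
  `|m_i - m_j| n` of `n` with `i` and `j` in a set `S` of at least `M + 1` indices; in particular, with the
  four numbers `0, 1, 2, 3` and `M = 1`, for `n`, `2 n` or `3 n`.

Proof: the coloured Maynard-Tao theorem with the constant `18 / 5` (helper827) for arbitrary classes of
shifts at the scale `x`. For the first part: the limit object of the sets of bad multipliers and the theorem
of the starting files on extreme invariant means on several levels (`W142.TB`). For the second part: a set of
exceptions of positive proportion contains `n (l + 1) W` for many `l < L` (dilation invariance), among these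
there is a blow-up of a homothetic copy of `m_0, ..., m_(T-1)` (Szemeredi's theorem, box theorem), all of
whose differences between the same two classes are bad.
-/

set_option autoImplicit false

namespace Pool.Agent.Results.MP_70e905_nt.FiveNinthsOfDivisors

open Finset Filter

/-- The number of the primes `p ≥ x` with `p ≡ a (mod q)` for which `p + d` is a prime and
`p + d ≤ 9 x`. -/
noncomputable def twins (x q a d : ℕ) : ℕ :=
  {p : ℕ | p.Prime ∧ (p + d).Prime ∧ p ≡ a [MOD q] ∧ x ≤ p ∧ p + d ≤ 9 * x}.ncard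

/-- `F` is almost invariant under the multiplication by the numbers up to `K`. -/
def AInv (K : ℕ) (F : Finset ℕ) : Prop :=
  ∀ k, 1 ≤ k → k ≤ K → K * (F.filter (fun n => k * n ∉ F)).card ≤ F.card

/-- For some `M + 1` of the numbers `m i` all their differences `m j - m i > 0` have
`twins x q a (q (m j - m i) n) ≥ x ^ (1 - η)`. -/
def Clique {T : ℕ} (m : Fin T → ℕ) (M : ℕ) (η : ℝ) (x q a n : ℕ) : Prop :=
  ∃ S : Finset (Fin T), M + 1 ≤ S.card ∧ ∀ i ∈ S, ∀ j ∈ S, m i < m j →
    (x : ℝ) ^ (1 - η) ≤ twins x q a (q * ((m j - m i) * n))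

theorem twins_eq (x q a d : ℕ) : Pool.Agent.TH899.UG.TD.prq 8 x q a d = twins x q a d := by
  unfold Pool.Agent.TH899.UG.TD.prq twins
  congr 1
  ext p
  simp only [Set.mem_ofPred_eq]
  have h1 : ((x : ℝ) ≤ p) ↔ x ≤ p := Nat.cast_le
  have h2 : (((p + d : ℕ) : ℝ) ≤ (1 + 8) * x) ↔ p + d ≤ 9 * x := by
    rw [← Nat.cast_le (α := ℝ)]
    have : ((9 * x : ℕ) : ℝ) = (1 + 8) * (x : ℝ) := by push_cast; ring
    rw [this]
  rw [h1, h2]

theorem clique_eq {T : ℕ} (m : Fin T → ℕ) (M : ℕ) (η : ℝ) (x q a n : ℕ) :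
    Pool.Agent.Y877.GQ.Clq m M η x q a n = Clique m M η x q a n := by
  unfold Pool.Agent.Y877.GQ.Clq Clique
  simp only [twins_eq]

open Classical in
theorem result (T M : ℕ) (hT : 1 ≤ T) (hTM : (18 / 5 : ℝ) * M < T) (m : Fin T → ℕ)
    (hm : Function.Injective m) (ε : ℝ) (hε : 0 < ε) : ∃ K : ℕ, 1 ≤ K ∧
    ∀ q : ℕ, 1 ≤ q → ∀ η : ℝ, 0 < η → ∀ᶠ x : ℕ in atTop, ∀ a : ℕ, a.Coprime q →
    (∀ F : Finset ℕ, AInv K F → (∀ n ∈ F, 1 ≤ n ∧ K * (q ^ 2 * n) ≤ x) →
      (5 / 9 - ε) * (F.card : ℝ) ≤
        ((F.filter (fun n => (x : ℝ) ^ (1 - η) ≤ twins x q a (q * n))).card : ℝ) ∧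
      ((F.filter (fun n => ¬ Clique m M η x q a n)).card : ℝ) ≤ ε * F.card) ∧
    (∀ N : ℕ, 1 ≤ N → K ∣ N → K * (q ^ 2 * N) ≤ x →
      (5 / 9 - ε) * (N.divisors.card : ℝ) ≤
        ((N.divisors.filter (fun n => (x : ℝ) ^ (1 - η) ≤ twins x q a (q * n))).card : ℝ) ∧
      ((N.divisors.filter (fun n => ¬ Clique m M η x q a n)).card : ℝ) ≤ ε * N.divisors.card) := by
  obtain ⟨K₁, hK₁, H1⟩ := Pool.Agent.Y877.GQ.finF T M hT hTM m hm ε hε
  obtain ⟨K₂, hK₂, H2⟩ := Pool.Agent.Y877.GQ.finD T M hT hTM m hm ε hε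
  simp only [twins_eq, clique_eq] at H1 H2
  have hle1 : K₁ ≤ K₁ * K₂ := Nat.le_mul_of_pos_right _ hK₂
  have hle2 : K₂ ≤ K₁ * K₂ := Nat.le_mul_of_pos_left _ hK₁
  refine ⟨K₁ * K₂, Nat.mul_pos hK₁ hK₂, fun q hq η hη => ?_⟩
  filter_upwards [H1 q hq η hη, H2 q hq η hη] with x h1 h2 a ha
  refine ⟨fun F hF hFx => ?_, fun N hN hKN hNx => ?_⟩
  · exact h1 a ha F (fun k hk hk' => (Nat.mul_le_mul_right _ hle1).trans (hF k hk (hk'.trans hle1)))
      fun n hn => ⟨(hFx n hn).1, (Nat.mul_le_mul_right _ hle1).trans (hFx n hn).2⟩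
  · exact h2 a ha N hN ((Dvd.intro_left _ rfl).trans hKN) ((Nat.mul_le_mul_right _ hle2).trans hNx)

end Pool.Agent.Results.MP_70e905_nt.FiveNinthsOfDivisors
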